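import Mathlib

set_option autoImplicit false

namespace Pool.Agent.Results.MP_14f067_co.InverseIsConjugate

/-! ## Game forms -/

/-- Game forms: `mk m n L R` is the game form `{L 0, …, L (m-1) | R 0, …, R (n-1)}`, the finite
sets of Left and Right options being given as finite families. -/
inductive Form : Type
  | mk (m n : ℕ) (L : Fin m → Form) (R : Fin n → Form) : Form

namespace Form

/-- The game form `0 = { | }`. -/
def zero : Form := mk 0 0 Fin.elim0 Fin.elim0

/-- The conjugate `{conj (G^R) | conj (G^L)}`. -/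
def conj : Form → Form
  | mk m n L R => mk n m (fun j => conj (R j)) (fun i => conj (L i))

/-- The disjunctive sum `{G + H^L, G^L + H | G + H^R, G^R + H}`; see `add_mk` for the recursion. -/
noncomputable def add (x y : Form) : Form :=
  Form.rec (motive := fun _ => Form → Form)
    (fun m n _ _ addL addR y =>
      Form.rec (motive := fun _ => Form)
        (fun m' n' L' R' IL IR =>
          mk (m + m') (n + n')
            (Fin.addCases (fun i => addL i (mk m' n' L' R')) IL)
            (Fin.addCases (fun j => addR j (mk m' n' L' R')) IR)) y) x y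

theorem add_mk (m n m' n' : ℕ) (L : Fin m → Form) (R : Fin n → Form) (L' : Fin m' → Form)
    (R' : Fin n' → Form) :
    add (mk m n L R) (mk m' n' L' R') =
      mk (m + m') (n + n')
        (Fin.addCases (fun i => add (L i) (mk m' n' L' R')) (fun i => add (mk m n L R) (L' i)))
        (Fin.addCases (fun j => add (R j) (mk m' n' L' R')) (fun j => add (mk m n L R) (R' j))) :=
  rfl

end Form

open Form

/-! ## Bidding play -/

/-- Left wins the round in which Left bids `bL` and Right bids `bR`; `m = true` means that Left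
holds the marker. The strictly higher bidder wins; on equal bids the marker holder wins. -/
def LeftTakes (m : Bool) (bL bR : ℕ) : Prop := bR < bL ∨ (bR = bL ∧ m = true)

/-- Does Left hold the marker after the round? `hL` (`hR`) says that Left (Right) has decided to
hand over the marker together with a winning bid. On equal bids the marker passes to the opponent
of its holder; otherwise it passes only if the winner of the round holds it and hands it over. -/
def newMarker (m : Bool) (bL : ℕ) (hL : Bool) (bR : ℕ) (hR : Bool) : Bool :=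
  if bL = bR then !m else if bR < bL then (m && !hL) else (m || hR)

/-- `LWin T G p m`: with total budget `T`, Left owning `p` units and Right owning `T - p` units,
and Left holding the marker iff `m = true`, Left wins `G`, in the sense of backward induction:
Left has a bid `bL` (and, if she holds the marker, a decision whether to hand it over with a
winning bid) which is good against every bid of Right. The winner of the round moves and pays her
or his bid to the opponent; a player who wins a round but has no option loses. -/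
def LWin (T : ℕ) : Form → ℕ → Bool → Prop
  | mk _ _ L R, p, m =>
    ∃ bL ≤ p, ∃ hL : Bool, (hL = true → m = true) ∧
      ∀ bR ≤ T - p, ∀ hR : Bool, (hR = true → m = false) →
        (LeftTakes m bL bR → ∃ i, LWin T (L i) (p - bL) (newMarker m bL hL bR hR)) ∧
        (¬ LeftTakes m bL bR → ∀ j, LWin T (R j) (p + bR) (newMarker m bL hL bR hR))

/-- `RWin T G p m`: in the same situation (Left owns `p` units, Left holds the marker iff
`m = true`) Right wins `G`: Right has a bid (and a decision about the marker) which is good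
against every bid of Left. -/
def RWin (T : ℕ) : Form → ℕ → Bool → Prop
  | mk _ _ L R, p, m =>
    ∃ bR ≤ T - p, ∃ hR : Bool, (hR = true → m = false) ∧
      ∀ bL ≤ p, ∀ hL : Bool, (hL = true → m = true) →
        (LeftTakes m bL bR → ∀ i, RWin T (L i) (p - bL) (newMarker m bL hL bR hR)) ∧
        (¬ LeftTakes m bL bR → ∃ j, RWin T (R j) (p + bR) (newMarker m bL hL bR hR))

/-- `G ≥ H` (for total budget `T`): `o(G + X) ≥ o(H + X)` for every game form `X`, the outcomes
being compared componentwise with `L > R`. -/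
def Ge (T : ℕ) (G H : Form) : Prop :=
  ∀ X : Form, ∀ p ≤ T, ∀ m : Bool, LWin T (add H X) p m → LWin T (add G X) p m

/-- `G = H` (for total budget `T`): `G ≥ H` and `H ≥ G`. -/
def Equal (T : ℕ) (G H : Form) : Prop := Ge T G H ∧ Ge T H G

/-! ## Options -/

/-- Left options -/
def IsL : Form → Form → Prop
  | mk _ _ L _, y => ∃ i, L i = y

/-- Right options -/
def IsR : Form → Form → Prop
  | mk _ _ _ R, y => ∃ j, R j = y

theorem form_ind {P : Form → Prop}
    (h : ∀ x, (∀ y, IsL x y → P y) → (∀ y, IsR x y → P y) → P x) : ∀ x, P x := by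
  intro x
  induction x with
  | mk m n L R ihL ihR =>
    refine h _ ?_ ?_
    · rintro y ⟨i, rfl⟩; exact ihL i
    · rintro y ⟨j, rfl⟩; exact ihR j

theorem isL_add (x y z : Form) :
    IsL (add x y) z ↔ (∃ x', IsL x x' ∧ z = add x' y) ∨ (∃ y', IsL y y' ∧ z = add x y') := by
  cases x with
  | mk m n L R =>
  cases y with
  | mk m' n' L' R' =>
  rw [add_mk]
  constructor
  · rintro ⟨i, rfl⟩
    refine Fin.addCases (fun i => ?_) (fun i => ?_) i
    · left; exact ⟨L i, ⟨i, rfl⟩, by simp only [Fin.addCases_left]⟩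
    · right; exact ⟨L' i, ⟨i, rfl⟩, by simp only [Fin.addCases_right]⟩
  · rintro (⟨x', ⟨i, rfl⟩, rfl⟩ | ⟨y', ⟨i, rfl⟩, rfl⟩)
    · exact ⟨Fin.castAdd m' i, by simp only [Fin.addCases_left]⟩
    · exact ⟨Fin.natAdd m i, by simp only [Fin.addCases_right]⟩

theorem isR_add (x y z : Form) :
    IsR (add x y) z ↔ (∃ x', IsR x x' ∧ z = add x' y) ∨ (∃ y', IsR y y' ∧ z = add x y') := by
  cases x with
  | mk m n L R =>
  cases y with
  | mk m' n' L' R' =>
  rw [add_mk]
  constructor
  · rintro ⟨i, rfl⟩
    refine Fin.addCases (fun i => ?_) (fun i => ?_) i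
    · left; exact ⟨R i, ⟨i, rfl⟩, by simp only [Fin.addCases_left]⟩
    · right; exact ⟨R' i, ⟨i, rfl⟩, by simp only [Fin.addCases_right]⟩
  · rintro (⟨x', ⟨i, rfl⟩, rfl⟩ | ⟨y', ⟨i, rfl⟩, rfl⟩)
    · exact ⟨Fin.castAdd n' i, by simp only [Fin.addCases_left]⟩
    · exact ⟨Fin.natAdd n i, by simp only [Fin.addCases_right]⟩

theorem isL_conj (x z : Form) : IsL (conj x) z ↔ ∃ y, IsR x y ∧ z = conj y := by
  cases x with
  | mk m n L R =>
  constructor
  · rintro ⟨i, rfl⟩; exact ⟨R i, ⟨i, rfl⟩, rfl⟩
  · rintro ⟨y, ⟨i, rfl⟩, rfl⟩; exact ⟨i, rfl⟩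

theorem isR_conj (x z : Form) : IsR (conj x) z ↔ ∃ y, IsL x y ∧ z = conj y := by
  cases x with
  | mk m n L R =>
  constructor
  · rintro ⟨i, rfl⟩; exact ⟨L i, ⟨i, rfl⟩, rfl⟩
  · rintro ⟨y, ⟨i, rfl⟩, rfl⟩; exact ⟨i, rfl⟩

theorem not_isL_zero (z : Form) : ¬ IsL zero z := by
  rintro ⟨i, _⟩; exact i.elim0

theorem not_isR_zero (z : Form) : ¬ IsR zero z := by
  rintro ⟨i, _⟩; exact i.elim0

theorem conj_conj (x : Form) : conj (conj x) = x := by
  induction x with
  | mk m n L R ihL ihR =>
    show mk m n (fun i => conj (conj (L i))) (fun j => conj (conj (R j))) = mk m n L R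
    congr 1
    · funext i; exact ihL i
    · funext j; exact ihR j

theorem conj_add (x y : Form) : conj (add x y) = add (conj x) (conj y) := by
  induction x generalizing y with
  | mk m n L R ihL ihR =>
  induction y with
  | mk m' n' L' R' ihL' ihR' =>
    rw [add_mk]
    show mk (n + n') (m + m') (fun j => conj _) (fun i => conj _) =
      add (mk n m (fun j => conj (R j)) (fun i => conj (L i)))
        (mk n' m' (fun j => conj (R' j)) (fun i => conj (L' i)))
    rw [add_mk]
    congr 1
    · funext k
      refine Fin.addCases (fun i => ?_) (fun i => ?_) k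
      · rw [Fin.addCases_left, Fin.addCases_left]; exact ihR i _
      · rw [Fin.addCases_right, Fin.addCases_right]; exact ihR' i
    · funext k
      refine Fin.addCases (fun i => ?_) (fun i => ?_) k
      · rw [Fin.addCases_left, Fin.addCases_left]; exact ihL i _
      · rw [Fin.addCases_right, Fin.addCases_right]; exact ihL' i

theorem lwin_iff (T : ℕ) (x : Form) (p : ℕ) (m : Bool) :
    LWin T x p m ↔ ∃ bL ≤ p, ∃ hL : Bool, (hL = true → m = true) ∧
      ∀ bR ≤ T - p, ∀ hR : Bool, (hR = true → m = false) →
        (LeftTakes m bL bR → ∃ y, IsL x y ∧ LWin T y (p - bL) (newMarker m bL hL bR hR)) ∧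
        (¬ LeftTakes m bL bR → ∀ y, IsR x y → LWin T y (p + bR) (newMarker m bL hL bR hR)) := by
  cases x with
  | mk k n L R =>
  constructor
  · rintro ⟨bL, h1, hL, h2, h3⟩
    refine ⟨bL, h1, hL, h2, fun bR h4 hR h5 => ?_⟩
    obtain ⟨h6, h7⟩ := h3 bR h4 hR h5
    refine ⟨fun h => ?_, fun h => ?_⟩
    · obtain ⟨i, hi⟩ := h6 h; exact ⟨L i, ⟨i, rfl⟩, hi⟩
    · rintro y ⟨j, rfl⟩; exact h7 h j
  · rintro ⟨bL, h1, hL, h2, h3⟩
    refine ⟨bL, h1, hL, h2, fun bR h4 hR h5 => ?_⟩
    obtain ⟨h6, h7⟩ := h3 bR h4 hR h5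
    refine ⟨fun h => ?_, fun h => ?_⟩
    · obtain ⟨y, ⟨i, rfl⟩, hi⟩ := h6 h; exact ⟨i, hi⟩
    · intro j; exact h7 h _ ⟨j, rfl⟩

theorem rwin_iff (T : ℕ) (x : Form) (p : ℕ) (m : Bool) :
    RWin T x p m ↔ ∃ bR ≤ T - p, ∃ hR : Bool, (hR = true → m = false) ∧
      ∀ bL ≤ p, ∀ hL : Bool, (hL = true → m = true) →
        (LeftTakes m bL bR → ∀ y, IsL x y → RWin T y (p - bL) (newMarker m bL hL bR hR)) ∧
        (¬ LeftTakes m bL bR → ∃ y, IsR x y ∧ RWin T y (p + bR) (newMarker m bL hL bR hR)) := by
  cases x with
  | mk k n L R =>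
  constructor
  · rintro ⟨bR, h1, hR, h2, h3⟩
    refine ⟨bR, h1, hR, h2, fun bL h4 hL h5 => ?_⟩
    obtain ⟨h6, h7⟩ := h3 bL h4 hL h5
    refine ⟨fun h => ?_, fun h => ?_⟩
    · rintro y ⟨j, rfl⟩; exact h6 h j
    · obtain ⟨i, hi⟩ := h7 h; exact ⟨R i, ⟨i, rfl⟩, hi⟩
  · rintro ⟨bR, h1, hR, h2, h3⟩
    refine ⟨bR, h1, hR, h2, fun bL h4 hL h5 => ?_⟩
    obtain ⟨h6, h7⟩ := h3 bL h4 hL h5
    refine ⟨fun h => ?_, fun h => ?_⟩
    · intro j; exact h6 h _ ⟨j, rfl⟩
    · obtain ⟨y, ⟨i, rfl⟩, hi⟩ := h7 h; exact ⟨i, hi⟩

/-! ## The simplified recursion -/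

/-- `W T x false p`: Left wins `x` with `p` units, Right holding the marker;
`W T x true p`: Left wins `x` with `p` units, Left holding the marker; both are declared to be
true for `p > T`. -/
def W (T : ℕ) : Form → Bool → ℕ → Prop
  | mk _ _ L R, false, p =>
    T < p ∨ ∃ b ≤ p, (∀ j, W T (R j) true (p + b)) ∧ (b = 0 ∨ ∃ i, W T (L i) false (p - b))
  | mk _ _ L R, true, p =>
    T < p ∨ ∃ b ≤ p, (∀ j, W T (R j) true (p + b + 1)) ∧ ∃ i, W T (L i) false (p - b)

/-- every Right option is won by Left with `p` units and the marker -/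
def Rr (T : ℕ) (x : Form) (p : ℕ) : Prop := ∀ y, IsR x y → W T y true p

/-- some Left option is won by Left with `p` units, without the marker -/
def Lr (T : ℕ) (x : Form) (p : ℕ) : Prop := ∃ y, IsL x y ∧ W T y false p

theorem A_iff (T : ℕ) (x : Form) (p : ℕ) :
    W T x false p ↔ T < p ∨ ∃ b ≤ p, Rr T x (p + b) ∧ (b = 0 ∨ Lr T x (p - b)) := by
  cases x with
  | mk k n L R =>
  constructor
  · rintro (h | ⟨b, hb, h1, h2⟩)
    · exact Or.inl h
    · refine Or.inr ⟨b, hb, ?_, h2.imp id ?_⟩
      · rintro y ⟨j, rfl⟩; exact h1 j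
      · rintro ⟨i, hi⟩; exact ⟨_, ⟨i, rfl⟩, hi⟩
  · rintro (h | ⟨b, hb, h1, h2⟩)
    · exact Or.inl h
    · refine Or.inr ⟨b, hb, ?_, h2.imp id ?_⟩
      · intro j; exact h1 _ ⟨j, rfl⟩
      · rintro ⟨y, ⟨i, rfl⟩, hi⟩; exact ⟨i, hi⟩

theorem B_iff (T : ℕ) (x : Form) (p : ℕ) :
    W T x true p ↔ T < p ∨ ∃ b ≤ p, Rr T x (p + b + 1) ∧ Lr T x (p - b) := by
  cases x with
  | mk k n L R =>
  constructor
  · rintro (h | ⟨b, hb, h1, i, hi⟩)
    · exact Or.inl h
    · refine Or.inr ⟨b, hb, ?_, _, ⟨i, rfl⟩, hi⟩
      rintro y ⟨j, rfl⟩; exact h1 j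
  · rintro (h | ⟨b, hb, h1, y, ⟨i, rfl⟩, hi⟩)
    · exact Or.inl h
    · exact Or.inr ⟨b, hb, fun j => h1 _ ⟨j, rfl⟩, i, hi⟩

theorem W_mono (T : ℕ) : ∀ x : Form, ∀ m : Bool, ∀ p q : ℕ, p ≤ q → W T x m p → W T x m q := by
  apply form_ind
  intro x ihL ihR m p q hpq h
  cases m with
  | false =>
    rw [A_iff] at h ⊢
    rcases h with h | ⟨b, hb, h1, h2⟩
    · left; omega
    · refine Or.inr ⟨b, by omega, fun y hy => ihR y hy true _ _ (by omega) (h1 y hy), ?_⟩
      rcases h2 with h2 | ⟨y, hy, h2⟩
      · exact Or.inl h2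
      · exact Or.inr ⟨y, hy, ihL y hy false _ _ (by omega) h2⟩
  | true =>
    rw [B_iff] at h ⊢
    rcases h with h | ⟨b, hb, h1, y, hy, h2⟩
    · left; omega
    · exact Or.inr ⟨b, by omega, fun y hy => ihR y hy true _ _ (by omega) (h1 y hy),
        y, hy, ihL y hy false _ _ (by omega) h2⟩

theorem Rr_mono {T : ℕ} {x : Form} {p q : ℕ} (hpq : p ≤ q) (h : Rr T x p) : Rr T x q :=
  fun y hy => W_mono T y true p q hpq (h y hy)

theorem Lr_mono {T : ℕ} {x : Form} {p q : ℕ} (hpq : p ≤ q) (h : Lr T x p) : Lr T x q := by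
  obtain ⟨y, hy, h⟩ := h
  exact ⟨y, hy, W_mono T y false p q hpq h⟩

theorem W_big {T : ℕ} (x : Form) (m : Bool) {p : ℕ} (h : T < p) : W T x m p := by
  cases m with
  | false => rw [A_iff]; exact Or.inl h
  | true => rw [B_iff]; exact Or.inl h

theorem Rr_big {T : ℕ} (x : Form) {p : ℕ} (h : T < p) : Rr T x p := fun y _ => W_big y true h

/-- the marker is worth at most one unit -/
theorem marker_worth {T : ℕ} {x : Form} {p : ℕ} (h : W T x true p) : W T x false (p + 1) := by
  rw [B_iff] at h
  rw [A_iff]
  rcases h with h | ⟨b, hb, h1, h2⟩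
  · left; omega
  · refine Or.inr ⟨b, by omega, ?_, Or.inr (Lr_mono (by omega) h2)⟩
    have : p + 1 + b = p + b + 1 := by omega
    rw [this]; exact h1

/-! ## The composition theorem -/

/-- the statement proved by simultaneous induction -/
structure Core (T : ℕ) (X C Y : Form) : Prop where
  E : ∀ p q, Rr T (add C X) p → W T (add (conj C) Y) true q → W T (add Y X) true (p + q)
  E' : ∀ p q, W T (add C X) true p → Rr T (add (conj C) Y) q → W T (add Y X) true (p + q)
  H : ∀ p q, Rr T (add C X) p → W T (add (conj C) Y) false q → W T (add Y X) false (p + q)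
  H' : ∀ p q, W T (add C X) false p → Rr T (add (conj C) Y) q → W T (add Y X) false (p + q)
  D : ∀ p q, p + q ≤ T → W T (add C X) false p → W T (add (conj C) Y) true q →
    Lr T (add Y X) (p + q)
  D' : ∀ p q, p + q ≤ T → W T (add C X) true p → W T (add (conj C) Y) false q →
    Lr T (add Y X) (p + q)

theorem core_step (T : ℕ) (X C Y : Form)
    (ihXL : ∀ X', IsL X X' → Core T X' C Y) (ihXR : ∀ X', IsR X X' → Core T X' C Y)
    (ihCL : ∀ C', IsL C C' → Core T X C' Y) (ihCR : ∀ C', IsR C C' → Core T X C' Y)
    (ihYL : ∀ Y', IsL Y Y' → Core T X C Y') (ihYR : ∀ Y', IsR Y Y' → Core T X C Y') :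
    Core T X C Y := by
  -- the three auxiliary facts
  have RR : ∀ p q, Rr T (add C X) p → Rr T (add (conj C) Y) q → Rr T (add Y X) (p + q) := by
    intro p q h1 h2 z hz
    rw [isR_add] at hz
    rcases hz with ⟨Y', hY', rfl⟩ | ⟨X', hX', rfl⟩
    · exact (ihYR Y' hY').E p q h1 (h2 _ ((isR_add _ _ _).2 (Or.inr ⟨Y', hY', rfl⟩)))
    · exact (ihXR X' hX').E' p q (h1 _ ((isR_add _ _ _).2 (Or.inr ⟨X', hX', rfl⟩))) h2
  have L1 : ∀ p q, p + q ≤ T → Rr T (add C X) p → Lr T (add (conj C) Y) q →
      Lr T (add Y X) (p + q) := by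
    rintro p q hpq h1 ⟨z, hz, h2⟩
    rw [isL_add] at hz
    rcases hz with ⟨c, hc, rfl⟩ | ⟨Y', hY', rfl⟩
    · rw [isL_conj] at hc
      obtain ⟨C', hC', rfl⟩ := hc
      exact (ihCR C' hC').D' p q hpq (h1 _ ((isR_add _ _ _).2 (Or.inl ⟨C', hC', rfl⟩))) h2
    · exact ⟨_, (isL_add _ _ _).2 (Or.inl ⟨Y', hY', rfl⟩), (ihYL Y' hY').H p q h1 h2⟩
  have L2 : ∀ p q, p + q ≤ T → Lr T (add C X) p → Rr T (add (conj C) Y) q →
      Lr T (add Y X) (p + q) := by
    rintro p q hpq ⟨z, hz, h1⟩ h2
    rw [isL_add] at hz
    rcases hz with ⟨C', hC', rfl⟩ | ⟨X', hX', rfl⟩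
    · exact (ihCL C' hC').D p q hpq h1
        (h2 _ ((isR_add _ _ _).2 (Or.inl ⟨conj C', (isR_conj _ _).2 ⟨C', hC', rfl⟩, rfl⟩)))
    · exact ⟨_, (isL_add _ _ _).2 (Or.inr ⟨X', hX', rfl⟩), (ihXL X' hX').H' p q h1 h2⟩
  constructor
  · -- E
    intro p q h1 h2
    rw [B_iff] at h2 ⊢
    by_cases hT : T < p + q
    · exact Or.inl hT
    · rcases h2 with h2 | ⟨b, hb, h3, h4⟩
      · left; omega
      · refine Or.inr ⟨b, by omega, ?_, ?_⟩
        · have := RR p (q + b + 1) h1 h3
          rwa [show p + q + b + 1 = p + (q + b + 1) by omega]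
        · have := L1 p (q - b) (by omega) h1 h4
          rwa [show p + q - b = p + (q - b) by omega]
  · -- E'
    intro p q h1 h2
    rw [B_iff] at h1 ⊢
    by_cases hT : T < p + q
    · exact Or.inl hT
    · rcases h1 with h1 | ⟨b, hb, h3, h4⟩
      · left; omega
      · refine Or.inr ⟨b, by omega, ?_, ?_⟩
        · have := RR (p + b + 1) q h3 h2
          rwa [show p + q + b + 1 = p + b + 1 + q by omega]
        · have := L2 (p - b) q (by omega) h4 h2
          rwa [show p + q - b = p - b + q by omega]
  · -- H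
    intro p q h1 h2
    rw [A_iff] at h2 ⊢
    by_cases hT : T < p + q
    · exact Or.inl hT
    · rcases h2 with h2 | ⟨b, hb, h3, h4⟩
      · left; omega
      · refine Or.inr ⟨b, by omega, ?_, ?_⟩
        · have := RR p (q + b) h1 h3
          rwa [show p + q + b = p + (q + b) by omega]
        · rcases h4 with h4 | h4
          · exact Or.inl h4
          · right
            have := L1 p (q - b) (by omega) h1 h4
            rwa [show p + q - b = p + (q - b) by omega]
  · -- H'
    intro p q h1 h2
    rw [A_iff] at h1 ⊢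
    by_cases hT : T < p + q
    · exact Or.inl hT
    · rcases h1 with h1 | ⟨b, hb, h3, h4⟩
      · left; omega
      · refine Or.inr ⟨b, by omega, ?_, ?_⟩
        · have := RR (p + b) q h3 h2
          rwa [show p + q + b = p + b + q by omega]
        · rcases h4 with h4 | h4
          · exact Or.inl h4
          · right
            have := L2 (p - b) q (by omega) h4 h2
            rwa [show p + q - b = p - b + q by omega]
  · -- D
    intro p q hT h1 h2
    rw [A_iff] at h1
    rw [B_iff] at h2
    rcases h1 with h1 | ⟨b, hb, h3, h4⟩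
    · omega
    rcases h2 with h2 | ⟨c, hc, h5, h6⟩
    · omega
    by_cases hbc : b ≤ c
    · exact Lr_mono (by omega) (L1 (p + b) (q - c) (by omega) h3 h6)
    · rcases h4 with h4 | h4
      · omega
      · exact Lr_mono (by omega) (L2 (p - b) (q + c + 1) (by omega) h4 h5)
  · -- D'
    intro p q hT h1 h2
    rw [B_iff] at h1
    rw [A_iff] at h2
    rcases h1 with h1 | ⟨c, hc, h5, h6⟩
    · omega
    rcases h2 with h2 | ⟨b, hb, h3, h4⟩
    · omega
    by_cases hbc : b ≤ c
    · exact Lr_mono (by omega) (L2 (p - c) (q + b) (by omega) h6 h3)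
    · rcases h4 with h4 | h4
      · omega
      · exact Lr_mono (by omega) (L1 (p + c + 1) (q - b) (by omega) h5 h4)

theorem core (T : ℕ) : ∀ X C Y : Form, Core T X C Y := by
  apply form_ind
  intro X ihXL ihXR
  apply form_ind
  intro C ihCL ihCR
  apply form_ind
  intro Y ihYL ihYR
  exact core_step T X C Y (fun X' h => ihXL X' h C Y) (fun X' h => ihXR X' h C Y)
    (fun C' h => ihCL C' h Y) (fun C' h => ihCR C' h Y) ihYL ihYR

/-- the comparison principle for the simplified recursion -/
theorem compare {T : ℕ} {C Y : Form} (h : W T (add (conj C) Y) false 0) (X : Form) (m : Bool)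
    (p : ℕ) (hp : W T (add C X) m p) : W T (add Y X) m p := by
  rw [A_iff] at h
  rcases h with h | ⟨b, hb, h1, _⟩
  · omega
  obtain rfl : b = 0 := by omega
  cases m with
  | false => exact (core T X C Y).H' p 0 hp h1
  | true => exact (core T X C Y).E' p 0 hp h1

/-! ## The bidding play follows the simplified recursion -/

theorem lwin_eq (T : ℕ) : ∀ x : Form, ∀ m : Bool, ∀ p ≤ T, (LWin T x p m ↔ W T x m p) := by
  apply form_ind
  intro x ihL ihR m p hp
  rw [lwin_iff]
  cases m with
  | false =>
    rw [A_iff]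
    constructor
    · rintro ⟨b, hb, hL, _, h⟩
      refine Or.inr ⟨b, hb, ?_, ?_⟩
      · intro y hy
        by_cases hbq : T < p + b
        · exact W_big y true hbq
        · have h1 := (h b (by omega) false (by simp)).2 (by simp [LeftTakes]) y hy
          have h2 : newMarker false b hL b false = true := by simp [newMarker]
          rw [h2] at h1
          exact (ihR y hy true (p + b) (by omega)).1 h1
      · by_cases hb0 : b = 0
        · exact Or.inl hb0
        · right
          obtain ⟨y, hy, h1⟩ := (h 0 (by omega) false (by simp)).1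
            (by left; omega)
          have h2 : newMarker false b hL 0 false = false := by
            simp only [newMarker]
            rw [if_neg hb0, if_pos (by omega)]; simp
          rw [h2] at h1
          exact ⟨y, hy, (ihL y hy false (p - b) (by omega)).1 h1⟩
    · rintro (h | ⟨b, hb, h1, h2⟩)
      · omega
      · refine ⟨b, hb, false, by simp, fun c hc hR _ => ⟨fun ht => ?_, fun ht y hy => ?_⟩⟩
        · rcases ht with ht | ht
          · rcases h2 with h2 | ⟨y, hy, h2⟩
            · omega
            · refine ⟨y, hy, ?_⟩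
              have h3 : newMarker false b false c hR = false := by
                simp only [newMarker]
                rw [if_neg (by omega), if_pos ht]; simp
              rw [h3]
              exact (ihL y hy false (p - b) (by omega)).2 h2
          · exact absurd ht.2 (by simp)
        · have hbc : b ≤ c := by
            by_contra hcon
            exact ht (Or.inl (by omega))
          rcases Nat.eq_or_lt_of_le hbc with hbc | hbc
          · have h3 : newMarker false b false c hR = true := by
              simp only [newMarker]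
              rw [if_pos hbc]; simp
            rw [h3]
            exact (ihR y hy true (p + c) (by omega)).2 (hbc ▸ h1 y hy)
          · have h3 : newMarker false b false c hR = hR := by
              simp only [newMarker]
              rw [if_neg (by omega), if_neg (by omega)]; simp
            rw [h3]
            cases hR with
            | true =>
              exact (ihR y hy true (p + c) (by omega)).2
                (W_mono T y true _ _ (by omega) (h1 y hy))
            | false =>
              refine (ihR y hy false (p + c) (by omega)).2 ?_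
              have h4 : W T y true (p + c - 1) := W_mono T y true _ _ (by omega) (h1 y hy)
              have h5 := marker_worth h4
              rwa [show p + c - 1 + 1 = p + c by omega] at h5
  | true =>
    rw [B_iff]
    constructor
    · rintro ⟨b, hb, hL, _, h⟩
      by_cases hbq : b ≤ T - p
      · -- a tie is possible
        refine Or.inr ⟨b, hb, ?_, ?_⟩
        · intro y hy
          by_cases hbq' : T < p + b + 1
          · exact W_big y true hbq'
          · have h1 := (h (b + 1) (by omega) false (by simp)).2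
              (by rintro (h0 | h0) <;> omega) y hy
            have h2 : newMarker true b hL (b + 1) false = true := by
              simp only [newMarker]
              rw [if_neg (by omega), if_neg (by omega)]; simp
            rw [h2] at h1
            exact (ihR y hy true (p + b + 1) (by omega)).1 h1
        · obtain ⟨y, hy, h1⟩ := (h b hbq false (by simp)).1 (Or.inr ⟨rfl, rfl⟩)
          have h2 : newMarker true b hL b false = false := by simp [newMarker]
          rw [h2] at h1
          exact ⟨y, hy, (ihL y hy false (p - b) (by omega)).1 h1⟩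
      · -- Left overbids the whole budget of Right
        refine Or.inr ⟨T - p, by omega, Rr_big x (by omega), ?_⟩
        obtain ⟨y, hy, h1⟩ := (h 0 (by omega) false (by simp)).1 (by left; omega)
        refine ⟨y, hy, ?_⟩
        have h2 : newMarker true b hL 0 false = !hL := by
          simp only [newMarker]
          rw [if_neg (by omega), if_pos (by omega)]; simp
        rw [h2] at h1
        cases hL with
        | true =>
          exact W_mono T y false _ _ (by omega) ((ihL y hy false (p - b) (by omega)).1 h1)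
        | false =>
          have h3 := marker_worth ((ihL y hy true (p - b) (by omega)).1 h1)
          exact W_mono T y false _ _ (by omega) h3
    · rintro (h | ⟨b, hb, h1, h2⟩)
      · omega
      · refine ⟨b, hb, true, by simp, fun c hc hR _ => ⟨fun ht => ?_, fun ht y hy => ?_⟩⟩
        · obtain ⟨y, hy, h2⟩ := h2
          refine ⟨y, hy, ?_⟩
          have h3 : newMarker true b true c hR = false := by
            simp only [newMarker]
            split_ifs with h4 h5
            · simp
            · simp
            · rcases ht with ht | ht <;> omega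
          rw [h3]
          exact (ihL y hy false (p - b) (by omega)).2 h2
        · have hbc : b < c := by
            by_contra hcon
            rcases Nat.lt_or_ge c b with h0 | h0
            · exact ht (Or.inl h0)
            · exact ht (Or.inr ⟨by omega, rfl⟩)
          have h3 : newMarker true b true c hR = true := by
            simp only [newMarker]
            rw [if_neg (by omega), if_neg (by omega)]; simp
          rw [h3]
          exact (ihR y hy true (p + c) (by omega)).2
            (W_mono T y true _ _ (by omega) (h1 y hy))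

/-! ## Right wins `G` iff Left wins the conjugate with exchanged budgets -/

theorem leftTakes_swap (m : Bool) (a b : ℕ) : LeftTakes (!m) b a ↔ ¬ LeftTakes m a b := by
  cases m <;> simp only [LeftTakes, Bool.not_true, Bool.not_false] <;> constructor <;> intro h <;>
    first | omega | (simp at h ⊢; omega)

theorem newMarker_swap (m : Bool) (a : ℕ) (ha : Bool) (b : ℕ) (hb : Bool) :
    newMarker (!m) b hb a ha = !newMarker m a ha b hb := by
  unfold newMarker
  rcases Nat.lt_trichotomy a b with h | h | h
  · rw [if_neg (by omega), if_pos h, if_neg (by omega), if_neg (by omega)]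
    cases m <;> cases hb <;> rfl
  · rw [if_pos h.symm, if_pos h]
  · rw [if_neg (by omega), if_neg (by omega), if_neg (by omega), if_pos h]
    cases m <;> cases ha <;> rfl

theorem rwin_eq (T : ℕ) : ∀ x : Form, ∀ m : Bool, ∀ p ≤ T,
    (RWin T x p m ↔ LWin T (conj x) (T - p) (!m)) := by
  apply form_ind
  intro x ihL ihR m p hp
  rw [rwin_iff, lwin_iff]
  refine exists_congr fun b => and_congr_right fun hb => exists_congr fun h => ?_
  refine and_congr (by cases m <;> simp) ?_
  have hTp : T - (T - p) = p := by omega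
  rw [hTp]
  refine forall_congr' fun c => forall_congr' fun hc => forall_congr' fun g => ?_
  refine imp_congr (by cases m <;> simp) ?_
  rw [and_comm]
  refine and_congr ?_ ?_
  · refine imp_congr (leftTakes_swap m c b).symm ?_
    constructor
    · rintro ⟨y, hy, hw⟩
      refine ⟨conj y, (isL_conj _ _).2 ⟨y, hy, rfl⟩, ?_⟩
      have := (ihR y hy _ (p + b) (by omega)).1 hw
      rw [newMarker_swap]
      rwa [show T - p - b = T - (p + b) by omega]
    · rintro ⟨z, hz, hw⟩
      obtain ⟨y, hy, rfl⟩ := (isL_conj _ _).1 hz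
      refine ⟨y, hy, (ihR y hy _ (p + b) (by omega)).2 ?_⟩
      rw [newMarker_swap] at hw
      rwa [show T - p - b = T - (p + b) by omega] at hw
  · refine imp_congr ?_ ?_
    · rw [leftTakes_swap m c b, not_not]
    · constructor
      · intro hw z hz
        obtain ⟨y, hy, rfl⟩ := (isR_conj _ _).1 hz
        have := (ihL y hy _ (p - c) (by omega)).1 (hw y hy)
        rw [newMarker_swap]
        rwa [show T - p + c = T - (p - c) by omega]
      · intro hw y hy
        have := hw (conj y) ((isR_conj _ _).2 ⟨y, hy, rfl⟩)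
        rw [newMarker_swap, show T - p + c = T - (p - c) by omega] at this
        exact (ihL y hy _ (p - c) (by omega)).2 this

/-! ## Duality (determinacy) -/

theorem dual_arith (T : ℕ) (R L R' L' : ℕ → Prop) (hR : ∀ s t, s ≤ t → R s → R t)
    (hRT : ∀ s, T < s → R s) (hL : ∀ s t, s ≤ t → L s → L t)
    (h1 : ∀ s ≤ T, (R' s ↔ ¬ L (T - s))) (h1' : ∀ s, T < s → R' s)
    (h2 : ∀ s ≤ T, (L' s ↔ ¬ R (T - s))) (p : ℕ) (hp : p ≤ T) :
    (∃ b ≤ p, R (p + b + 1) ∧ L (p - b)) ↔
      ¬ ∃ b ≤ T - p, R' (T - p + b) ∧ (b = 0 ∨ L' (T - p - b)) := by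
  constructor
  · rintro ⟨c, hc, h3, h4⟩ ⟨b, hb, h5, h6⟩
    rcases Nat.lt_or_ge c b with hcb | hcb
    · rcases h6 with h6 | h6
      · omega
      · rw [h2 _ (by omega)] at h6
        exact h6 (hR _ _ (by omega) h3)
    · rw [h1 _ (by omega)] at h5
      exact h5 (hL _ _ (by omega) h4)
  · intro h
    by_contra hcon
    classical
    -- the least `b` with `b > p` or `¬ L (p - b)`
    have hex : ∃ b, p < b ∨ ¬ L (p - b) := ⟨p + 1, Or.inl (by omega)⟩
    set b := Nat.find hex with hbdef
    have hb1 := Nat.find_spec hex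
    have hb2 : ∀ c, c < b → ¬ (p < c ∨ ¬ L (p - c)) := fun c hc => Nat.find_min hex hc
    rw [← hbdef] at hb1
    by_cases hbq : b ≤ T - p
    · apply h
      refine ⟨b, hbq, ?_, ?_⟩
      · rcases hb1 with hb1 | hb1
        · exact h1' _ (by omega)
        · by_cases hbp : p < b
          · exact h1' _ (by omega)
          · rw [h1 _ (by omega), show T - (T - p + b) = p - b by omega]
            exact hb1
      · by_cases hb0 : b = 0
        · exact Or.inl hb0
        · right
          rw [h2 _ (by omega)]
          intro h3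
          have h4 := hb2 (b - 1) (by omega)
          push Not at h4
          exact hcon ⟨b - 1, h4.1, hR _ _ (by omega) h3, h4.2⟩
    · have h4 := hb2 (T - p) (by omega)
      push Not at h4
      exact hcon ⟨T - p, h4.1, hRT _ (by omega), h4.2⟩

theorem dual (T : ℕ) : ∀ x : Form, (∀ p ≤ T, (W T x true p ↔ ¬ W T (conj x) false (T - p))) ∧
    (∀ p ≤ T, (W T x false p ↔ ¬ W T (conj x) true (T - p))) := by
  apply form_ind
  intro x ihL ihR
  have h1 : ∀ s ≤ T, (Rr T (conj x) s ↔ ¬ Lr T x (T - s)) := by
    intro s hs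
    constructor
    · rintro h ⟨y, hy, h3⟩
      have h4 := h _ ((isR_conj _ _).2 ⟨y, hy, rfl⟩)
      rw [(ihL y hy).2 _ (by omega), show T - (T - s) = s by omega] at h3
      exact h3 h4
    · intro h z hz
      obtain ⟨y, hy, rfl⟩ := (isR_conj _ _).1 hz
      by_contra h3
      apply h
      refine ⟨y, hy, ?_⟩
      rw [(ihL y hy).2 _ (by omega), show T - (T - s) = s by omega]
      exact h3
  have h2 : ∀ s ≤ T, (Lr T (conj x) s ↔ ¬ Rr T x (T - s)) := by
    intro s hs
    constructor
    · rintro ⟨z, hz, h3⟩ h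
      obtain ⟨y, hy, rfl⟩ := (isL_conj _ _).1 hz
      have h4 := h y hy
      rw [(ihR y hy).1 _ (by omega), show T - (T - s) = s by omega] at h4
      exact h4 h3
    · intro h
      by_contra h3
      apply h
      intro y hy
      rw [(ihR y hy).1 _ (by omega), show T - (T - s) = s by omega]
      intro h4
      exact h3 ⟨_, (isL_conj _ _).2 ⟨y, hy, rfl⟩, h4⟩
  constructor
  · intro p hp
    rw [B_iff, A_iff]
    have h3 := dual_arith T (Rr T x) (Lr T x) (Rr T (conj x)) (Lr T (conj x))
      (fun s t hst h => Rr_mono hst h) (fun s hs => Rr_big x hs) (fun s t hst h => Lr_mono hst h)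
      h1 (fun s hs => Rr_big _ hs) h2 p hp
    constructor
    · rintro (h | h)
      · omega
      · rintro (h' | h')
        · omega
        · exact h3.1 h h'
    · intro h
      right
      apply h3.2
      intro h'
      exact h (Or.inr h')
  · intro p hp
    rw [B_iff, A_iff]
    have h3 := dual_arith T (Rr T (conj x)) (Lr T (conj x)) (Rr T x) (Lr T x)
      (fun s t hst h => Rr_mono hst h) (fun s hs => Rr_big _ hs) (fun s t hst h => Lr_mono hst h)
      (fun s hs => by
        rw [h2 _ (by omega), show T - (T - s) = s by omega, not_not])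
      (fun s hs => Rr_big _ hs)
      (fun s hs => by
        rw [h1 _ (by omega), show T - (T - s) = s by omega, not_not]) (T - p) (by omega)
    rw [show T - (T - p) = p by omega] at h3
    constructor
    · rintro (h | h)
      · omega
      · rintro (h' | h')
        · omega
        · exact h3.1 h' h
    · intro h
      by_contra h4
      apply h
      right
      apply h3.2
      intro h'
      exact h4 (Or.inr h')

/-! ## Adding zero -/

theorem add_zero_W (T : ℕ) : ∀ x : Form, ∀ m : Bool, ∀ p : ℕ,
    (W T (add x zero) m p ↔ W T x m p) := by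
  apply form_ind
  intro x ihL ihR
  have hR : ∀ s, (Rr T (add x zero) s ↔ Rr T x s) := by
    intro s
    constructor
    · intro h y hy
      exact (ihR y hy true s).1 (h _ ((isR_add _ _ _).2 (Or.inl ⟨y, hy, rfl⟩)))
    · intro h z hz
      rcases (isR_add _ _ _).1 hz with ⟨y, hy, rfl⟩ | ⟨y, hy, rfl⟩
      · exact (ihR y hy true s).2 (h y hy)
      · exact absurd hy (not_isR_zero y)
  have hL : ∀ s, (Lr T (add x zero) s ↔ Lr T x s) := by
    intro s
    constructor
    · rintro ⟨z, hz, h⟩
      rcases (isL_add _ _ _).1 hz with ⟨y, hy, rfl⟩ | ⟨y, hy, rfl⟩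
      · exact ⟨y, hy, (ihL y hy false s).1 h⟩
      · exact absurd hy (not_isL_zero y)
    · rintro ⟨y, hy, h⟩
      exact ⟨_, (isL_add _ _ _).2 (Or.inl ⟨y, hy, rfl⟩), (ihL y hy false s).2 h⟩
  intro m p
  cases m with
  | false => rw [A_iff, A_iff]; simp only [hR, hL]
  | true => rw [B_iff, B_iff]; simp only [hR, hL]

theorem zero_W_false (T p : ℕ) : W T zero false p := by
  rw [A_iff]
  exact Or.inr ⟨0, by omega, fun y hy => absurd hy (not_isR_zero y), Or.inl rfl⟩

theorem zero_W_true (T p : ℕ) (hp : p ≤ T) : ¬ W T zero true p := by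
  rw [B_iff]
  rintro (h | ⟨b, _, _, y, hy, _⟩)
  · omega
  · exact not_isL_zero y hy

/-! ## The main results -/

/-- if `G + H ≥ 0` then Left wins `G + H` without money and without the marker -/
theorem of_ge_zero {T : ℕ} {K : Form} (h : Ge T K zero) : W T K false 0 := by
  have h1 := h zero 0 (by omega) false
    ((lwin_eq T _ false 0 (by omega)).2 ((add_zero_W T zero false 0).2 (zero_W_false T 0)))
  exact (add_zero_W T K false 0).1 ((lwin_eq T _ false 0 (by omega)).1 h1)

theorem of_le_zero {T : ℕ} {K : Form} (h : Ge T zero K) : W T (conj K) false 0 := by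
  have h0 : ¬ W T K true T := by
    intro h1
    have h2 := h zero T le_rfl true
      ((lwin_eq T _ true T le_rfl).2 ((add_zero_W T K true T).2 h1))
    exact zero_W_true T T le_rfl ((add_zero_W T zero true T).1 ((lwin_eq T _ true T le_rfl).1 h2))
  rw [(dual T K).1 T le_rfl, not_not, Nat.sub_self] at h0
  exact h0

/-- Comparison: if Left wins `conj C + Y` without money and without the marker, then `Y ≥ C`. -/
theorem ge_of {T : ℕ} {C Y : Form} (h : W T (add (conj C) Y) false 0) : Ge T Y C := by
  intro X p hp m h1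
  exact (lwin_eq T _ m p hp).2 (compare h X m p ((lwin_eq T _ m p hp).1 h1))

theorem lwin_dual {T : ℕ} (x : Form) (p : ℕ) (hp : p ≤ T) (m : Bool) :
    LWin T x p m ↔ ¬ LWin T (conj x) (T - p) (!m) := by
  rw [lwin_eq T x m p hp, lwin_eq T (conj x) (!m) (T - p) (by omega)]
  cases m with
  | true => exact (dual T x).1 p hp
  | false => exact (dual T x).2 p hp

theorem ge_conj {T : ℕ} {G H : Form} (h : Ge T G H) : Ge T (conj H) (conj G) := by
  intro X p hp m h1
  rw [lwin_dual _ p hp m] at h1 ⊢
  rw [conj_add, conj_conj] at h1 ⊢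
  intro h2
  exact h1 (h (conj X) (T - p) (by omega) (!m) h2)

theorem comm_W (T : ℕ) : ∀ x y : Form, ∀ m : Bool, ∀ p : ℕ,
    (W T (add x y) m p ↔ W T (add y x) m p) := by
  apply form_ind
  intro x ihxL ihxR
  apply form_ind
  intro y ihyL ihyR
  have hR : ∀ s, (Rr T (add x y) s ↔ Rr T (add y x) s) := by
    intro s
    constructor
    · intro h z hz
      rcases (isR_add _ _ _).1 hz with ⟨y', hy', rfl⟩ | ⟨x', hx', rfl⟩
      · exact (ihyR y' hy' true s).1 (h _ ((isR_add _ _ _).2 (Or.inr ⟨y', hy', rfl⟩)))
      · exact (ihxR x' hx' y true s).1 (h _ ((isR_add _ _ _).2 (Or.inl ⟨x', hx', rfl⟩)))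
    · intro h z hz
      rcases (isR_add _ _ _).1 hz with ⟨x', hx', rfl⟩ | ⟨y', hy', rfl⟩
      · exact (ihxR x' hx' y true s).2 (h _ ((isR_add _ _ _).2 (Or.inr ⟨x', hx', rfl⟩)))
      · exact (ihyR y' hy' true s).2 (h _ ((isR_add _ _ _).2 (Or.inl ⟨y', hy', rfl⟩)))
  have hL : ∀ s, (Lr T (add x y) s ↔ Lr T (add y x) s) := by
    intro s
    constructor
    · rintro ⟨z, hz, h⟩
      rcases (isL_add _ _ _).1 hz with ⟨x', hx', rfl⟩ | ⟨y', hy', rfl⟩
      · exact ⟨_, (isL_add _ _ _).2 (Or.inr ⟨x', hx', rfl⟩), (ihxL x' hx' y false s).1 h⟩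
      · exact ⟨_, (isL_add _ _ _).2 (Or.inl ⟨y', hy', rfl⟩), (ihyL y' hy' false s).1 h⟩
    · rintro ⟨z, hz, h⟩
      rcases (isL_add _ _ _).1 hz with ⟨y', hy', rfl⟩ | ⟨x', hx', rfl⟩
      · exact ⟨_, (isL_add _ _ _).2 (Or.inr ⟨y', hy', rfl⟩), (ihyL y' hy' false s).2 h⟩
      · exact ⟨_, (isL_add _ _ _).2 (Or.inl ⟨x', hx', rfl⟩), (ihxL x' hx' y false s).2 h⟩
  intro m p
  cases m with
  | false => rw [A_iff, A_iff]; simp only [hR, hL]
  | true => rw [B_iff, B_iff]; simp only [hR, hL]

/-- Main theorem.
(1) Determinacy: in every position exactly one of the players wins (so the partial outcome is `L`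
iff `LWin` and `R` iff `RWin`).
(2) The answer to the question: if `G + H = 0` then `H` equals the conjugate of `G`.
(3) Comparison: if `G + conj H ≥ 0` then `G ≥ H`. -/
theorem result :
    (∀ (T : ℕ) (G : Form) (p : ℕ), p ≤ T → ∀ m : Bool, (RWin T G p m ↔ ¬ LWin T G p m)) ∧
    (∀ (T : ℕ) (G H : Form), Equal T (add G H) zero → Equal T H (conj G)) ∧
    (∀ (T : ℕ) (G H : Form), Ge T (add G (conj H)) zero → Ge T G H) := by
  refine ⟨?_, ?_, ?_⟩
  · intro T G p hp m
    rw [rwin_eq T G m p hp, lwin_dual G p hp m, not_not]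
  · intro T G H h
    constructor
    · apply ge_of
      rw [conj_conj]
      exact of_ge_zero h.1
    · have h1 := of_le_zero h.2
      rw [conj_add] at h1
      have h2 := ge_conj (ge_of h1)
      rwa [conj_conj] at h2
  · intro T G H h
    apply ge_of
    rw [comm_W]
    exact of_ge_zero h

end Pool.Agent.Results.MP_14f067_co.InverseIsConjugate
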